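import Pool.Agent.Helper31.CY.St1

/-!
# Project CY (MP_9583f0_gt), module IMP: implicit function theorem with second derivatives
-/

set_option autoImplicit false

open Set Topology Filter

namespace Pool.Agent.Helper75.CY

open Pool.Agent.Helper31.CY

section

variable {F : ℝ × ℝ → ℝ} {w : ℝ × ℝ}

private theorem fd_eq (L : ℝ × ℝ →L[ℝ] ℝ) (a b : ℝ) : L (a, b) = a * L (1, 0) + b * L (0, 1) := by
  have h : ((a, b) : ℝ × ℝ) = a • (1, 0) + b • (0, 1) := by
    simp
  rw [h, map_add, map_smul, map_smul, smul_eq_mul, smul_eq_mul]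

/-- chain rule along a graph -/
private theorem chain (G : ℝ × ℝ → ℝ) (W : ℝ → ℝ) (s m : ℝ)
    (hG : DifferentiableAt ℝ G (s, W s)) (hW : HasDerivAt W m s) :
    HasDerivAt (fun s => G (s, W s)) (D1 G (s, W s) + D2 G (s, W s) * m) s := by
  have h1 : HasDerivAt (fun s => (s, W s)) ((1 : ℝ), m) s := (hasDerivAt_id s).prodMk hW
  have h2 := hG.hasFDerivAt.comp_hasDerivAt s h1
  have h3 : fderiv ℝ G (s, W s) (1, m) = D1 G (s, W s) + D2 G (s, W s) * m := by
    rw [fd_eq]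
    unfold D1 D2
    ring
  rw [h3] at h2
  exact h2

private theorem hasFDerivAt_D (hF : ContDiffAt ℝ 2 F w) (v : ℝ × ℝ) :
    HasFDerivAt (fun z => fderiv ℝ F z v)
      ((ContinuousLinearMap.apply ℝ ℝ v).comp (fderiv ℝ (fderiv ℝ F) w)) w := by
  have h1 : ContDiffAt ℝ 1 (fderiv ℝ F) w := hF.fderiv_right (by norm_num)
  have h2 := (h1.differentiableAt (by norm_num)).hasFDerivAt
  exact (ContinuousLinearMap.apply ℝ ℝ v).hasFDerivAt.comp w h2

private theorem symm2 (hF : ContDiffAt ℝ 2 F w) : D1 (D2 F) w = D2 (D1 F) w := by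
  have h1 : D1 (D2 F) w = fderiv ℝ (fderiv ℝ F) w (1, 0) (0, 1) := by
    change fderiv ℝ (fun z => fderiv ℝ F z (0, 1)) w (1, 0) = _
    rw [(hasFDerivAt_D hF (0, 1)).fderiv]
    rfl
  have h2 : D2 (D1 F) w = fderiv ℝ (fderiv ℝ F) w (0, 1) (1, 0) := by
    change fderiv ℝ (fun z => fderiv ℝ F z (1, 0)) w (0, 1) = _
    rw [(hasFDerivAt_D hF (1, 0)).fderiv]
    rfl
  rw [h1, h2]
  have h3 : IsSymmSndFDerivAt ℝ F w := hF.isSymmSndFDerivAt (by simp)
  exact h3 (1, 0) (0, 1)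

end

/-- **IMP** -/
theorem hIMP : StIMP := by
  intro F V q hV hq hF h0 hD
  have hFq : ContDiffAt ℝ 2 F q := hF.contDiffAt (hV.mem_nhds hq)
  have hFat : ∀ w ∈ V, ContDiffAt ℝ 2 F w := fun w hw => hF.contDiffAt (hV.mem_nhds hw)
  have hinv : (fderiv ℝ F q ∘L .inr ℝ ℝ ℝ).IsInvertible := by
    refine ⟨ContinuousLinearEquiv.unitsEquivAut ℝ (Units.mk0 (D2 F q) hD), ?_⟩
    ext
    simp [D2]
  have h2 : (2 : WithTop ℕ∞) ≠ 0 := by norm_num
  set W : ℝ → ℝ := hFq.implicitFunction h2 hinv with hW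
  have W0 : W q.1 = q.2 := hFq.implicitFunction_apply_self h2 hinv
  have W2 : ContDiffAt ℝ 2 W q.1 := hFq.contDiffAt_implicitFunction h2 hinv
  have hqe : (q.1, W q.1) = q := by rw [W0]
  have hcont : ContinuousAt (fun s => (s, W s)) q.1 :=
    continuousAt_id.prodMk W2.continuousAt
  have ht : Tendsto (fun s => (s, W s)) (𝓝 q.1) (𝓝 (q.1, W q.1)) := hcont
  rw [hqe] at ht
  have hVW : ∀ᶠ s in 𝓝 q.1, (s, W s) ∈ V := ht.eventually (hV.mem_nhds hq)
  have hD2c : ContinuousAt (D2 F) q := by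
    have h3 := hF.continuousOn_fderiv_of_isOpen hV (by norm_num)
    have h4 : ContinuousAt (fderiv ℝ F) q := h3.continuousAt (hV.mem_nhds hq)
    exact h4.clm_apply continuousAt_const
  have hDW : ∀ᶠ s in 𝓝 q.1, D2 F (s, W s) ≠ 0 :=
    ht.eventually (p := fun w => D2 F w ≠ 0) (hD2c.eventually_ne hD)
  have hFW : ∀ᶠ s in 𝓝 q.1, F (s, W s) = 0 := by
    filter_upwards [hFq.eventually_apply_implicitFunction h2 hinv] with s hs
    rw [hs, h0]
  have hWs : ∀ᶠ s in 𝓝 q.1, ContDiffAt ℝ 2 W s := W2.eventually (by norm_num)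
  have hiff : ∀ᶠ x in 𝓝 q, x ∈ V ∧ (F x = 0 ↔ x.2 = W x.1) := by
    filter_upwards [hFq.eventually_apply_eq_iff_implicitFunction h2 hinv, hV.mem_nhds hq]
      with x hx hxV
    rw [h0] at hx
    exact ⟨hxV, hx.trans eq_comm⟩
  obtain ⟨ε₁, hε₁, H₁⟩ := Metric.eventually_nhds_iff.1 hiff
  obtain ⟨ε₂, hε₂, H₂⟩ := Metric.eventually_nhds_iff.1 (hVW.and (hDW.and (hFW.and hWs)))
  refine ⟨W, deriv W, deriv (deriv W), min ε₁ ε₂, lt_min hε₁ hε₂, W0, ?_, ?_⟩
  · intro x hx
    refine H₁ ?_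
    rw [Prod.dist_eq, Real.dist_eq, Real.dist_eq]
    exact max_lt (hx.1.trans_le (min_le_left _ _)) (hx.2.trans_le (min_le_left _ _))
  · intro s hs
    have hs2 : s ∈ Metric.ball q.1 ε₂ := by
      rw [Metric.mem_ball, Real.dist_eq]; exact hs.trans_le (min_le_right _ _)
    have hloc : ∀ u ∈ Metric.ball q.1 ε₂, (u, W u) ∈ V ∧ D2 F (u, W u) ≠ 0 ∧
        F (u, W u) = 0 ∧ ContDiffAt ℝ 2 W u := fun u hu => H₂ hu
    have hder : ∀ u ∈ Metric.ball q.1 ε₂, HasDerivAt W (deriv W u) u := fun u hu =>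
      ((hloc u hu).2.2.2.differentiableAt h2).hasDerivAt
    have hder2 : HasDerivAt (deriv W) (deriv (deriv W) s) s := by
      have h3 : ContDiffAt ℝ 1 (fderiv ℝ W) s := (hloc s hs2).2.2.2.fderiv_right (by norm_num)
      have h4 : DifferentiableAt ℝ (fun u => fderiv ℝ W u 1) s :=
        (h3.differentiableAt (by norm_num)).clm_apply (differentiableAt_const _)
      have h5 : deriv W = fun u => fderiv ℝ W u 1 := by
        funext u
        rw [fderiv_apply_one_eq_deriv]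
      rw [h5]
      exact h4.hasDerivAt
    have key : ∀ u ∈ Metric.ball q.1 ε₂,
        D1 F (u, W u) + D2 F (u, W u) * deriv W u = 0 := by
      intro u hu
      have h3 := chain F W u (deriv W u) ((hFat _ (hloc u hu).1).differentiableAt h2) (hder u hu)
      have h4 : HasDerivAt (fun s => F (s, W s)) 0 u := by
        refine (hasDerivAt_const u (0 : ℝ)).congr_of_eventuallyEq ?_
        filter_upwards [Metric.isOpen_ball.mem_nhds hu] with v hv
        exact (hloc v hv).2.2.1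
      exact h3.unique h4
    have hC := hFat _ (hloc s hs2).1
    refine ⟨(hloc s hs2).1, (hloc s hs2).2.2.1, hder s hs2, hder2, (hloc s hs2).2.1, key s hs2, ?_⟩
    have d1 : DifferentiableAt ℝ (D1 F) (s, W s) := (hasFDerivAt_D hC (1, 0)).differentiableAt
    have d2 : DifferentiableAt ℝ (D2 F) (s, W s) := (hasFDerivAt_D hC (0, 1)).differentiableAt
    have e1 := chain (D1 F) W s (deriv W s) d1 (hder s hs2)
    have e2 := chain (D2 F) W s (deriv W s) d2 (hder s hs2)
    have e3 := e1.add (e2.mul hder2)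
    have e4 : HasDerivAt (fun u => D1 F (u, W u) + D2 F (u, W u) * deriv W u) 0 s := by
      refine (hasDerivAt_const s (0 : ℝ)).congr_of_eventuallyEq ?_
      filter_upwards [Metric.isOpen_ball.mem_nhds hs2] with v hv
      exact key v hv
    have e5 := e3.unique e4
    rw [symm2 hC] at e5
    linarith

end Pool.Agent.Helper75.CY
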